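import Pool.Agent.Helper91.IP.Defs

/-!
# Project IP, piece E4: orthogonal projections as matrices
-/

namespace Pool.Agent.Helper83.IP

open Finset Equiv Matrix

/-- two matrices with the same action are equal -/
theorem ext_mulVec {ι : Type} [Fintype ι] [DecidableEq ι] {A B : Matrix ι ι ℝ}
    (h : ∀ u : ι → ℝ, A *ᵥ u = B *ᵥ u) : A = B := by
  ext i j
  have := congrFun (h (Pi.single j 1)) i
  simpa using this

/-- IP-E4 (linear algebra): orthogonal projections as matrices -/
theorem exists_proj {ι : Type} [Fintype ι] [DecidableEq ι] (U : Submodule ℝ (ι → ℝ)) :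
    ∃ P : Matrix ι ι ℝ, P.IsSymm ∧ P * P = P ∧ (∀ u, P *ᵥ u ∈ U) ∧ (∀ u ∈ U, P *ᵥ u = u) ∧
      trace P = Module.finrank ℝ U ∧
      ∀ M : Matrix ι ι ℝ, (∀ u ∈ U, M *ᵥ u ∈ U) → (∀ u ∈ U, Mᵀ *ᵥ u ∈ U) → M * P = P * M := by
  classical
  let e : EuclideanSpace ℝ ι ≃ₗ[ℝ] (ι → ℝ) := WithLp.linearEquiv 2 ℝ (ι → ℝ)
  let U' : Submodule ℝ (EuclideanSpace ℝ ι) := U.comap e.toLinearMap
  let T : EuclideanSpace ℝ ι →ₗ[ℝ] EuclideanSpace ℝ ι := (U'.starProjection : _ →ₗ[ℝ] _)
  let P : Matrix ι ι ℝ := LinearMap.toMatrix' (e.toLinearMap ∘ₗ T ∘ₗ e.symm.toLinearMap)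
  have hP : ∀ u, P *ᵥ u = e (T (e.symm u)) := by
    intro u
    simp only [P, LinearMap.toMatrix'_mulVec, LinearMap.comp_apply, LinearEquiv.coe_coe]
  have hin : ∀ x y : EuclideanSpace ℝ ι, inner ℝ x y = e x ⬝ᵥ e y := by
    intro x y
    rw [EuclideanSpace.inner_eq_star_dotProduct, dotProduct_comm]
    simp [e]
  have hmem : ∀ u, P *ᵥ u ∈ U := by
    intro u
    rw [hP]
    have : T (e.symm u) ∈ U' := Submodule.starProjection_apply_mem U' _
    exact this
  have hfix : ∀ u ∈ U, P *ᵥ u = u := by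
    intro u hu
    rw [hP]
    have h1 : e.symm u ∈ U' := by
      change e (e.symm u) ∈ U
      simpa using hu
    have h2 : T (e.symm u) = e.symm u := Submodule.starProjection_eq_self_iff.mpr h1
    rw [h2]; simp
  have hsa : ∀ u v, u ⬝ᵥ (P *ᵥ v) = (P *ᵥ u) ⬝ᵥ v := by
    intro u v
    rw [hP, hP]
    have h1 := Submodule.inner_starProjection_left_eq_right U' (e.symm u) (e.symm v)
    rw [hin, hin] at h1
    simp only [LinearEquiv.apply_symm_apply] at h1
    exact h1.symm
  have hsymm : P.IsSymm := by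
    ext i j
    have := hsa (Pi.single j 1) (Pi.single i 1)
    simpa [Matrix.transpose_apply] using this
  have hPP : P * P = P := by
    apply ext_mulVec
    intro u
    rw [← mulVec_mulVec]
    exact hfix _ (hmem u)
  refine ⟨P, hsymm, hPP, hmem, hfix, ?_, ?_⟩
  · have hproj : LinearMap.IsProj U (Matrix.toLin' P) := by
      refine ⟨fun u => ?_, fun u hu => ?_⟩
      · simpa using hmem u
      · simpa using hfix u hu
    have := hproj.trace
    rw [Matrix.trace_toLin'_eq] at this
    exact this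
  · intro M h1 h2
    have h3 : P * M * P = M * P := by
      apply ext_mulVec
      intro u
      rw [← mulVec_mulVec, ← mulVec_mulVec, ← mulVec_mulVec]
      exact hfix _ (h1 _ (hmem u))
    have h4 : P * Mᵀ * P = Mᵀ * P := by
      apply ext_mulVec
      intro u
      rw [← mulVec_mulVec, ← mulVec_mulVec, ← mulVec_mulVec]
      exact hfix _ (h2 _ (hmem u))
    have h5 : P * M * P = P * M := by
      have := congrArg Matrix.transpose h4
      simp only [Matrix.transpose_mul, Matrix.transpose_transpose, hsymm.eq] at this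
      rw [← Matrix.mul_assoc] at this
      exact this
    rw [← h3, h5]

end Pool.Agent.Helper83.IP
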